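import Pool.Agent.U88.RS.Fan
import Pool.Agent.U88.RS.Metr
import Pool.Agent.U88.RS.Sum
import Pool.Agent.U88.RS.Omega

/-!
# Sequential rectifiable spaces with a point-countable k-network are paracompact (helper88)

Let `G` be a sequential Hausdorff rectifiable space with a point-countable k-network. Then `G` is
metrizable or the topological sum of σ-compact (clopen) subspaces; in particular `G` is paracompact.

Proof. Write `p x`, `q x` for the mutually inverse translations, `q x x = e`.

* If no system of sequences converging to `e` is a closed sequential fan, then `e` has the α₄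
  property, `G` is Frechet-Urysohn (transport the sequences with `q`), a closing-off argument gives
  first countability, and a first countable rectifiable space is metrizable (Gul'ko).
* If there is a closed fan at `e`, the finite intersections of members of the network which have
  compact closure again form a point-countable network: otherwise the points `p d s`, `d` in closed
  discrete sets shrinking to a point and `s` in the fan, chosen slowly, form a closed discrete set
  with an accumulation point.
* A network of relatively compact sets is closed off, along `ω₁` steps, to σ-compact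
  subsets closed under `p` and `q`. If none of them is open, there are sequences `c_α → e`
  (`α < ω₁`), each avoiding the hull of the previous ones, and for finite-to-one `e_α : α → ω` the set
  of all `p (c_β (e_α β)) (c_α (g_α β))` is closed and discrete but accumulates at `e`.
* If a neighbourhood `N` of `e` is σ-compact, the sets stable under right translation by `N` are
  clopen, and so are all their unions; cutting along a well-order gives the sum decomposition.
-/

set_option autoImplicit false

open Set Filter Topology

namespace Pool.Agent.Results.MP_32aa7d_gt.SequentialRectifiable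

open U88.RS

universe u

/-- Every sequential Hausdorff rectifiable space with a point-countable k-network is paracompact;
moreover it is metrizable or a topological sum of σ-compact subspaces. -/
theorem result :
    ∀ (G : Type u) [TopologicalSpace G] [T2Space G] [SequentialSpace G]
      (e : G) (φ : G × G ≃ₜ G × G),
      (∀ x y, (φ (x, y)).1 = x) → (∀ x, φ (x, x) = (x, e)) →
      ∀ 𝒜 : Set (Set G), (∀ x, {A | A ∈ 𝒜 ∧ x ∈ A}.Countable) →
      (∀ K U : Set G, IsCompact K → IsOpen U → K ⊆ U →
        ∃ F : Set (Set G), F ⊆ 𝒜 ∧ F.Finite ∧ K ⊆ ⋃₀ F ∧ ⋃₀ F ⊆ U) →
      ParacompactSpace G ∧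
      (TopologicalSpace.MetrizableSpace G ∨
        ∃ J : G → Set G, (∀ i, IsClopen (J i)) ∧ (∀ i, IsSigmaCompact (J i)) ∧
          (∀ i j x, x ∈ J i → x ∈ J j → i = j) ∧ ∀ x, ∃ i, x ∈ J i) := by
  intro G _ _ _ e φ h1 h2 𝒜 hpc hk
  let R : Rect G := ofHomeo e φ h1 h2
  have hreg : RegularSpace G := R.regular
  have hnetU : NetU 𝒜 := netU_of_kNet hk
  by_cases hfan : ∃ s, Fan R.e s
  · obtain ⟨s, hs⟩ := hfan
    have hQ := Q_net R hpc hnetU hs
    obtain ⟨N, hN, hσ⟩ := exists_sigmaCompact_nhds R (Q_pc hpc) hQ.net (fun A hA => hA.1)
    obtain ⟨J, hJ1, hJ2, hJ3, hJ4⟩ := R.partition_of_sigmaCompact hN hσ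
    exact ⟨paracompact_of_partition J hJ1 (fun i => (hJ2 i).isLindelof) hJ3 hJ4,
      Or.inr ⟨J, hJ1, hJ2, hJ3, hJ4⟩⟩
  · push Not at hfan
    have h3 := firstCountable_of_alpha4 R hpc hnetU.net
      (fun s hs => alpha4_of_no_fan hpc hnetU.net hfan s hs)
    have h4 : TopologicalSpace.PseudoMetrizableSpace G :=
      R.pseudoMetrizable_of_firstCountable h3
    have h5 : TopologicalSpace.MetrizableSpace G := by
      let _ := TopologicalSpace.pseudoMetrizableSpacePseudoMetric G
      let _ : MetricSpace G := MetricSpace.ofT0PseudoMetricSpace G
      infer_instance
    refine ⟨?_, Or.inl h5⟩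
    let _ := TopologicalSpace.pseudoMetrizableSpacePseudoMetric G
    infer_instance

end Pool.Agent.Results.MP_32aa7d_gt.SequentialRectifiable
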